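import Mathlib

open Filter Topology Complex ComplexConjugate

namespace Pool.H42.Bessel

section Distance

variable {X J : Type}

/-- pointwise expansion of the square of the distance -/
lemma pointwise (c : ℂ) (a : J → ℂ) (T : Finset J) (ν : J → ℝ) (w : ℝ) :
    ‖c - ∑ j ∈ T, (ν j : ℂ) * conj (a j)‖ ^ 2 * w =
      ‖c‖ ^ 2 * w - 2 * ∑ j ∈ T, ν j * (c * a j * (w:ℂ)).re +
        ∑ j ∈ T, ∑ k ∈ T, ν j * ν k * (a j * conj (a k) * (w:ℂ)).re := by
  set s : ℂ := ∑ j ∈ T, (ν j : ℂ) * conj (a j) with hs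
  have hcs : conj s = ∑ j ∈ T, (ν j : ℂ) * a j := by
    rw [hs, map_sum]
    apply Finset.sum_congr rfl
    intro j _
    rw [map_mul, conj_ofReal, conj_conj]
  have h1 : ‖c - s‖ ^ 2 = ‖c‖ ^ 2 - 2 * (c * conj s).re + (conj s * s).re := by
    have h2 : (conj s * s).re = ‖s‖ ^ 2 := by
      rw [← normSq_eq_conj_mul_self, ofReal_re, normSq_eq_norm_sq]
    rw [h2, ← normSq_eq_norm_sq, ← normSq_eq_norm_sq, ← normSq_eq_norm_sq, normSq_sub]
    ring
  rw [h1]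
  have h3 : (c * conj s).re * w = ∑ j ∈ T, ν j * (c * a j * (w:ℂ)).re := by
    rw [hcs, Finset.mul_sum, re_sum, Finset.sum_mul]
    apply Finset.sum_congr rfl
    intro j _
    have : c * ((ν j : ℂ) * a j) = (ν j : ℂ) * (c * a j) := by ring
    rw [this, re_ofReal_mul, re_mul_ofReal]
    ring
  have h4 : (conj s * s).re * w =
      ∑ j ∈ T, ∑ k ∈ T, ν j * ν k * (a j * conj (a k) * (w:ℂ)).re := by
    rw [hcs, hs, Finset.sum_mul_sum, re_sum, Finset.sum_mul]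
    apply Finset.sum_congr rfl
    intro j _
    rw [re_sum, Finset.sum_mul]
    apply Finset.sum_congr rfl
    intro k _
    have : (ν j : ℂ) * a j * ((ν k : ℂ) * conj (a k)) =
        ((ν j * ν k : ℝ) : ℂ) * (a j * conj (a k)) := by
      push_cast
      ring
    rw [this, re_ofReal_mul, re_mul_ofReal]
    ring
  rw [← h3, ← h4]
  ring

/-- the distance formula -/
lemma distance (c : X → ℂ) (a : J → X → ℂ) (w : X → ℝ) (T : Finset J) (ν : J → ℝ)
    (Sc : ℝ) (lam : J → ℝ) (G : J → J → ℝ)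
    (hc : HasSum (fun x => ‖c x‖ ^ 2 * w x) Sc)
    (hl : ∀ j ∈ T, HasSum (fun x => (c x * a j x * (w x : ℂ)).re) (lam j))
    (hG : ∀ j ∈ T, ∀ k ∈ T, HasSum (fun x => (a j x * conj (a k x) * (w x : ℂ)).re) (G j k)) :
    HasSum (fun x => ‖c x - ∑ j ∈ T, (ν j : ℂ) * conj (a j x)‖ ^ 2 * w x)
      (Sc - 2 * ∑ j ∈ T, ν j * lam j + ∑ j ∈ T, ∑ k ∈ T, ν j * ν k * G j k) := by
  have h1 : HasSum (fun x => ∑ j ∈ T, ν j * (c x * a j x * (w x : ℂ)).re)
      (∑ j ∈ T, ν j * lam j) := hasSum_sum fun j hj => (hl j hj).mul_left _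
  have h2 : HasSum (fun x => ∑ j ∈ T, ∑ k ∈ T, ν j * ν k * (a j x * conj (a k x) * (w x : ℂ)).re)
      (∑ j ∈ T, ∑ k ∈ T, ν j * ν k * G j k) :=
    hasSum_sum fun j hj => hasSum_sum fun k hk => (hG j hj k hk).mul_left _
  have h3 := (hc.sub (h1.mul_left 2)).add h2
  refine h3.congr_fun ?_
  intro x
  exact pointwise (c x) (fun j => a j x) T ν (w x)

end Distance

/-- logarithmic growth at a point, from the right, with bounded error -/
lemma log_growth {f : ℂ → ℂ} {x : ℂ} (hf : MeromorphicAt f x) (m : ℤ)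
    (hm : meromorphicOrderAt f x = ((-m : ℤ) : WithTop ℤ)) :
    ∃ C : ℝ, ∀ᶠ h : ℝ in 𝓝[>] 0, |Real.log ‖f (x + h)‖ - m * Real.log (1/h)| ≤ C := by
  rw [meromorphicOrderAt_eq_int_iff hf] at hm
  obtain ⟨g, hg, hg0, hfg⟩ := hm
  have hshift : Tendsto (fun h : ℝ => x + (h:ℂ)) (𝓝[>] 0) (𝓝[≠] x) := by
    rw [tendsto_nhdsWithin_iff]
    constructor
    · have : Tendsto (fun h : ℝ => x + (h:ℂ)) (𝓝 0) (𝓝 (x + ((0:ℝ):ℂ))) := by
        apply Continuous.tendsto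
        fun_prop
      rw [ofReal_zero, add_zero] at this
      exact this.mono_left nhdsWithin_le_nhds
    · filter_upwards [self_mem_nhdsWithin] with h hh
      have : (0:ℝ) < h := hh
      simp [this.ne']
  have hgc : Tendsto (fun h : ℝ => Real.log ‖g (x + h)‖) (𝓝[>] 0) (𝓝 (Real.log ‖g x‖)) := by
    have h1 : Tendsto (fun h : ℝ => g (x + h)) (𝓝[>] 0) (𝓝 (g x)) :=
      hg.continuousAt.tendsto.comp (hshift.mono_right nhdsWithin_le_nhds)
    exact (h1.norm).log (norm_ne_zero_iff.mpr hg0)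
  have hbd := hgc.eventually (Metric.ball_mem_nhds (Real.log ‖g x‖) one_pos)
  refine ⟨|Real.log ‖g x‖| + 1, ?_⟩
  filter_upwards [hbd, hshift.eventually hfg, self_mem_nhdsWithin,
    hshift.eventually ((hg.continuousAt.eventually_ne hg0).filter_mono nhdsWithin_le_nhds)]
    with h h1 h2 h3 h4
  have h3' : (0:ℝ) < h := h3
  rw [h2]
  have h5 : x + (h:ℂ) - x = (h:ℂ) := by ring
  rw [h5, norm_smul, norm_zpow, norm_real, Real.norm_of_nonneg h3'.le,
    Real.log_mul (zpow_ne_zero _ h3'.ne') (norm_ne_zero_iff.mpr h4), Real.log_zpow, one_div,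
    Real.log_inv]
  push_cast
  have h6 : -(m:ℝ) * Real.log h + Real.log ‖g (x + h)‖ - m * -Real.log h =
      Real.log ‖g (x + h)‖ := by ring
  rw [h6]
  rw [Real.dist_eq] at h1
  have h7 := abs_sub_abs_le_abs_sub (Real.log ‖g (x + h)‖) (Real.log ‖g x‖)
  linarith


/-- data for the abstract Bessel inequality -/
structure Data (X J : Type) (w : ℝ → X → ℝ) (c : X → ℂ) (a : J → X → ℂ) : Prop where
  w0 : ∀ h x, 0 ≤ w h x
  wmono : ∀ h h' x, 0 ≤ h → h ≤ h' → w h' x ≤ w h x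
  wlim : ∀ x, Tendsto (fun h => w h x) (𝓝[>] 0) (𝓝 (w 0 x))
  c2 : ∀ h : ℝ, 0 < h → Summable fun x => ‖c x‖ ^ 2 * w h x
  a2 : ∀ j, ∀ h : ℝ, 0 < h → Summable fun x => ‖a j x‖ ^ 2 * w h x
  orth : ∀ j k, j ≠ k → ∃ C : ℝ, ∀ h : ℝ, 0 < h → h ≤ 1 →
    ‖∑' x, a j x * conj (a k x) * (w h x : ℂ)‖ ≤ C
  norm : ∀ j, ∃ C : ℝ, ∀ h : ℝ, 0 < h → h ≤ 1 →
    |∑' x, ‖a j x‖ ^ 2 * w h x - Real.log (1/h)| ≤ C

lemma summable_mul {X : Type} {w : X → ℝ} (w0 : ∀ x, 0 ≤ w x) {c a : X → ℂ}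
    (hc : Summable fun x => ‖c x‖ ^ 2 * w x) (ha : Summable fun x => ‖a x‖ ^ 2 * w x) :
    Summable fun x => c x * a x * (w x : ℂ) := by
  apply Summable.of_norm_bounded (g := fun x => ‖c x‖ ^ 2 * w x + ‖a x‖ ^ 2 * w x) (hc.add ha)
  intro x
  rw [norm_mul, norm_mul, norm_real, Real.norm_of_nonneg (w0 x), ← add_mul]
  apply mul_le_mul_of_nonneg_right _ (w0 x)
  nlinarith [sq_nonneg (‖c x‖ - ‖a x‖), sq_nonneg (‖c x‖ + ‖a x‖)]

lemma summable_mul_conj {X : Type} {w : X → ℝ} (w0 : ∀ x, 0 ≤ w x) {c a : X → ℂ}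
    (hc : Summable fun x => ‖c x‖ ^ 2 * w x) (ha : Summable fun x => ‖a x‖ ^ 2 * w x) :
    Summable fun x => c x * conj (a x) * (w x : ℂ) := by
  apply summable_mul w0 (a := fun x => conj (a x)) hc
  refine ha.congr fun x => ?_
  rw [norm_conj]

section Main

variable {X J : Type} {w : ℝ → X → ℝ} {c : X → ℂ} {a : J → X → ℂ}

/-- the first form of the theorem: distance formula with bounded error -/
theorem distance_bound (D : Data X J w c a) (T : Finset J) :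
    ∃ C : ℝ, 0 ≤ C ∧ ∀ h : ℝ, 0 < h → h ≤ 1 → ∀ ν : J → ℝ,
      Summable (fun x => ‖c x - ∑ j ∈ T, (ν j : ℂ) * conj (a j x)‖ ^ 2 * w h x) ∧
      |∑' x, ‖c x - ∑ j ∈ T, (ν j : ℂ) * conj (a j x)‖ ^ 2 * w h x -
        (∑' x, ‖c x‖ ^ 2 * w h x - 2 * ∑ j ∈ T, ν j * (∑' x, c x * a j x * (w h x : ℂ)).re +
          Real.log (1/h) * ∑ j ∈ T, ν j ^ 2)| ≤ C * (∑ j ∈ T, |ν j|) ^ 2 := by
  classical
  have hG : ∀ j k, ∃ C : ℝ, 0 ≤ C ∧ ∀ h : ℝ, 0 < h → h ≤ 1 →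
      |(∑' x, a j x * conj (a k x) * (w h x : ℂ)).re - (if j = k then Real.log (1/h) else 0)|
        ≤ C := by
    intro j k
    by_cases hjk : j = k
    · subst hjk
      obtain ⟨C, hC⟩ := D.norm j
      refine ⟨max C 0, le_max_right _ _, fun h h0 h1 => ?_⟩
      have h2 : (∑' x, a j x * conj (a j x) * (w h x : ℂ)).re = ∑' x, ‖a j x‖ ^ 2 * w h x := by
        rw [Complex.re_tsum (summable_mul_conj (D.w0 h) (D.a2 j h h0) (D.a2 j h h0))]
        apply tsum_congr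
        intro x
        rw [mul_conj, ← ofReal_mul, ofReal_re, normSq_eq_norm_sq]
      rw [h2, if_pos rfl]
      exact (hC h h0 h1).trans (le_max_left _ _)
    · obtain ⟨C, hC⟩ := D.orth j k hjk
      refine ⟨max C 0, le_max_right _ _, fun h h0 h1 => ?_⟩
      rw [if_neg hjk, sub_zero]
      exact ((abs_re_le_norm _).trans (hC h h0 h1)).trans (le_max_left _ _)
  choose C hC0 hC using hG
  refine ⟨∑ j ∈ T, ∑ k ∈ T, C j k,
    Finset.sum_nonneg fun j _ => Finset.sum_nonneg fun k _ => hC0 j k, fun h h0 h1 ν => ?_⟩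
  have hd := distance c a (w h) T ν (∑' x, ‖c x‖ ^ 2 * w h x)
    (fun j => (∑' x, c x * a j x * (w h x : ℂ)).re)
    (fun j k => (∑' x, a j x * conj (a k x) * (w h x : ℂ)).re)
    (D.c2 h h0).hasSum
    (fun j _ => Complex.hasSum_re (summable_mul (D.w0 h) (D.c2 h h0) (D.a2 j h h0)).hasSum)
    (fun j _ k _ => Complex.hasSum_re
      (summable_mul_conj (D.w0 h) (D.a2 j h h0) (D.a2 k h h0)).hasSum)
  refine ⟨hd.summable, ?_⟩
  rw [hd.tsum_eq]
  have h2 : Real.log (1/h) * ∑ j ∈ T, ν j ^ 2 =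
      ∑ j ∈ T, ∑ k ∈ T, ν j * ν k * (if j = k then Real.log (1/h) else 0) := by
    rw [Finset.mul_sum]
    apply Finset.sum_congr rfl
    intro j hj
    rw [Finset.sum_eq_single j]
    · rw [if_pos rfl]
      ring
    · intro k _ hk
      rw [if_neg (Ne.symm hk), mul_zero]
    · intro hj'
      exact absurd hj hj'
  rw [h2]
  set Sc := ∑' x, ‖c x‖ ^ 2 * w h x
  set Sl := ∑ j ∈ T, ν j * (∑' x, c x * a j x * (w h x : ℂ)).re
  have h3 : Sc - 2 * Sl + (∑ j ∈ T, ∑ k ∈ T, ν j * ν k *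
      (∑' x, a j x * conj (a k x) * (w h x : ℂ)).re) -
      (Sc - 2 * Sl + ∑ j ∈ T, ∑ k ∈ T, ν j * ν k * (if j = k then Real.log (1/h) else 0)) =
      ∑ j ∈ T, ∑ k ∈ T, ν j * ν k * ((∑' x, a j x * conj (a k x) * (w h x : ℂ)).re -
        (if j = k then Real.log (1/h) else 0)) := by
    simp only [mul_sub, Finset.sum_sub_distrib]
    ring
  rw [h3]
  have h4 : ∀ j ∈ T, |ν j| ≤ ∑ j ∈ T, |ν j| := fun j hj =>
    Finset.single_le_sum (f := fun j => |ν j|) (fun _ _ => abs_nonneg _) hj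
  calc |∑ j ∈ T, ∑ k ∈ T, ν j * ν k * ((∑' x, a j x * conj (a k x) * (w h x : ℂ)).re -
        (if j = k then Real.log (1/h) else 0))|
      ≤ ∑ j ∈ T, |∑ k ∈ T, ν j * ν k * ((∑' x, a j x * conj (a k x) * (w h x : ℂ)).re -
        (if j = k then Real.log (1/h) else 0))| := Finset.abs_sum_le_sum_abs _ _
    _ ≤ ∑ j ∈ T, ∑ k ∈ T, |ν j * ν k * ((∑' x, a j x * conj (a k x) * (w h x : ℂ)).re -
        (if j = k then Real.log (1/h) else 0))| :=
        Finset.sum_le_sum fun j _ => Finset.abs_sum_le_sum_abs _ _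
    _ ≤ ∑ j ∈ T, ∑ k ∈ T, C j k * (∑ j ∈ T, |ν j|) ^ 2 := by
        apply Finset.sum_le_sum
        intro j hj
        apply Finset.sum_le_sum
        intro k hk
        rw [abs_mul, abs_mul, mul_comm, sq]
        have h5 : 0 ≤ ∑ j ∈ T, |ν j| := Finset.sum_nonneg fun _ _ => abs_nonneg _
        apply mul_le_mul (hC j k h h0 h1) _ (by positivity) (hC0 j k)
        exact mul_le_mul (h4 j hj) (h4 k hk) (abs_nonneg _) h5
    _ = (∑ j ∈ T, ∑ k ∈ T, C j k) * (∑ j ∈ T, |ν j|) ^ 2 := by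
        rw [Finset.sum_mul]
        apply Finset.sum_congr rfl
        intro j _
        rw [Finset.sum_mul]

/-- growth inequality -/
theorem growth (D : Data X J w c a) (M : ℝ) (hM : ∃ C : ℝ, ∀ h : ℝ, 0 < h → h ≤ 1 →
      ∑' x, ‖c x‖ ^ 2 * w h x ≤ M * Real.log (1/h) + C) (T : Finset J) :
    ∃ C : ℝ, ∀ h : ℝ, 0 < h → h ≤ 1 →
      ∑ j ∈ T, (∑' x, c x * a j x * (w h x : ℂ)).re ^ 2 ≤
        M * Real.log (1/h) ^ 2 + C * (Real.log (1/h) + 1) := by
  obtain ⟨C1, hC1⟩ := hM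
  obtain ⟨C, hC0, hC⟩ := distance_bound D T
  set K : ℝ := C * T.card + 1 with hK
  have hK0 : 0 < K := by positivity
  refine ⟨|M| * K + |C1| * (1 + K), fun h h0 h1 => ?_⟩
  set l := Real.log (1/h) with hl
  have hlog : 0 ≤ l := by
    apply Real.log_nonneg
    rw [le_div_iff₀ h0]
    linarith
  set lam : J → ℝ := fun j => (∑' x, c x * a j x * (w h x : ℂ)).re with hlam
  set Y := ∑ j ∈ T, lam j ^ 2 with hY
  have hY0 : 0 ≤ Y := Finset.sum_nonneg fun _ _ => sq_nonneg _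
  obtain ⟨-, h2⟩ := hC h h0 h1 (fun j => lam j / (l + K))
  have hlK : 0 < l + K := by positivity
  have h3 := (abs_le.mp h2).2
  have h4 : 0 ≤ ∑' x, ‖c x - ∑ j ∈ T, ((lam j / (l + K) : ℝ) : ℂ) * conj (a j x)‖ ^ 2 * w h x :=
    tsum_nonneg fun x => mul_nonneg (sq_nonneg _) (D.w0 h x)
  have e1 : ∑ j ∈ T, lam j / (l + K) * (∑' x, c x * a j x * (w h x : ℂ)).re = Y / (l + K) := by
    rw [hY, Finset.sum_div]
    apply Finset.sum_congr rfl
    intro j _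
    simp only [hlam]
    ring
  have e2 : ∑ j ∈ T, (lam j / (l + K)) ^ 2 = Y / (l + K) ^ 2 := by
    rw [hY, Finset.sum_div]
    apply Finset.sum_congr rfl
    intro j _
    rw [div_pow]
  have e3 : (∑ j ∈ T, |lam j / (l + K)|) ^ 2 ≤ T.card * (Y / (l + K) ^ 2) := by
    rw [← e2]
    have h5 := Finset.sum_mul_sq_le_sq_mul_sq T (fun _ => (1:ℝ)) (fun j => |lam j / (l + K)|)
    simpa only [one_mul, one_pow, Finset.sum_const, nsmul_eq_mul, mul_one, sq_abs] using h5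
  rw [e1, e2] at h3
  have h5 : Y / (l + K) ^ 2 * (l + K) = Y / (l + K) := by
    field_simp
  have h6 : C * (∑ j ∈ T, |lam j / (l + K)|) ^ 2 ≤ K * (Y / (l + K) ^ 2) := by
    calc C * (∑ j ∈ T, |lam j / (l + K)|) ^ 2 ≤ C * (T.card * (Y / (l + K) ^ 2)) := by gcongr
      _ = (C * T.card) * (Y / (l + K) ^ 2) := by ring
      _ ≤ K * (Y / (l + K) ^ 2) := by
          apply mul_le_mul_of_nonneg_right _ (by positivity)
          linarith
  have h7 : Y / (l + K) ≤ M * l + C1 := by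
    have h8 := hC1 h h0 h1
    have h9 : l * (Y / (l + K) ^ 2) + K * (Y / (l + K) ^ 2) = Y / (l + K) := by
      rw [← h5]
      ring
    linarith
  have h8 : Y ≤ (M * l + C1) * (l + K) := by
    rwa [div_le_iff₀ hlK] at h7
  have h9 : M * K * l ≤ |M| * K * l := by
    apply mul_le_mul_of_nonneg_right _ hlog
    exact mul_le_mul_of_nonneg_right (le_abs_self M) hK0.le
  have h10 : C1 * l ≤ |C1| * l := mul_le_mul_of_nonneg_right (le_abs_self C1) hlog
  have h11 : C1 * K ≤ |C1| * K := mul_le_mul_of_nonneg_right (le_abs_self C1) hK0.le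
  calc Y ≤ (M * l + C1) * (l + K) := h8
    _ = M * l ^ 2 + M * K * l + C1 * l + C1 * K := by ring
    _ ≤ M * l ^ 2 + |M| * K * l + |C1| * l + |C1| * K := by linarith
    _ ≤ M * l ^ 2 + (|M| * K + |C1| * (1 + K)) * (l + 1) := by
        have a1 : 0 ≤ |M| * K := by positivity
        have a2 : 0 ≤ |C1| * K * l := by positivity
        have a3 : 0 ≤ |C1| := by positivity
        nlinarith

/-- remainder of a finite family, for small `h` -/
theorem remainder_small (D : Data X J w c a) (T : Finset J) (m : J → ℤ)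
    (hm : ∀ j ∈ T, ∃ C : ℝ, ∀ᶠ h : ℝ in 𝓝[>] 0,
      |(∑' x, c x * a j x * (w h x : ℂ)).re - m j * Real.log (1/h)| ≤ C) :
    ∃ C : ℝ, ∀ᶠ h : ℝ in 𝓝[>] 0,
      |∑' x, ‖c x - ∑ j ∈ T, (m j : ℂ) * conj (a j x)‖ ^ 2 * w h x -
        (∑' x, ‖c x‖ ^ 2 * w h x - Real.log (1/h) * ∑ j ∈ T, (m j : ℝ) ^ 2)| ≤ C := by
  classical
  obtain ⟨C, hC0, hC⟩ := distance_bound D T
  have hm' : ∀ j, ∃ C : ℝ, j ∈ T → ∀ᶠ h : ℝ in 𝓝[>] 0,
      |(∑' x, c x * a j x * (w h x : ℂ)).re - m j * Real.log (1/h)| ≤ C := by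
    intro j
    by_cases hj : j ∈ T
    · obtain ⟨C, hC⟩ := hm j hj
      exact ⟨C, fun _ => hC⟩
    · exact ⟨0, fun h => absurd h hj⟩
  choose B hB using hm'
  refine ⟨C * (∑ j ∈ T, |(m j : ℝ)|) ^ 2 + 2 * ∑ j ∈ T, |(m j : ℝ)| * B j, ?_⟩
  have hall : ∀ᶠ h : ℝ in 𝓝[>] 0, ∀ j ∈ T,
      |(∑' x, c x * a j x * (w h x : ℂ)).re - m j * Real.log (1/h)| ≤ B j := by
    rw [Filter.eventually_all_finset]
    exact fun j hj => hB j hj
  filter_upwards [hall, self_mem_nhdsWithin,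
    nhdsWithin_le_nhds (Iio_mem_nhds (show (0:ℝ) < 1 by norm_num))] with h h2 h0 h1
  have h0' : (0:ℝ) < h := h0
  have h1' : h ≤ 1 := le_of_lt h1
  obtain ⟨-, h3⟩ := hC h h0' h1' (fun j => (m j : ℝ))
  set lam : J → ℝ := fun j => (∑' x, c x * a j x * (w h x : ℂ)).re with hlam
  set l := Real.log (1/h) with hl
  have h4 : |∑ j ∈ T, (m j : ℝ) * lam j - l * ∑ j ∈ T, (m j : ℝ) ^ 2| ≤
      ∑ j ∈ T, |(m j : ℝ)| * B j := by
    have h5 : ∑ j ∈ T, (m j : ℝ) * lam j - l * ∑ j ∈ T, (m j : ℝ) ^ 2 =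
        ∑ j ∈ T, (m j : ℝ) * (lam j - m j * l) := by
      rw [Finset.mul_sum, ← Finset.sum_sub_distrib]
      apply Finset.sum_congr rfl
      intro j _
      ring
    rw [h5]
    refine (Finset.abs_sum_le_sum_abs _ _).trans (Finset.sum_le_sum fun j hj => ?_)
    rw [abs_mul]
    exact mul_le_mul_of_nonneg_left (h2 j hj) (abs_nonneg _)
  have h5 := abs_le.mp h3
  have h6 := abs_le.mp h4
  have e : ∀ x, ‖c x - ∑ j ∈ T, (((m j : ℝ)) : ℂ) * conj (a j x)‖ ^ 2 * w h x =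
      ‖c x - ∑ j ∈ T, (m j : ℂ) * conj (a j x)‖ ^ 2 * w h x := by
    intro x
    push_cast
    rfl
  simp only [e] at h5
  rw [abs_le]
  constructor <;> linarith [h5.1, h5.2, h6.1, h6.2]

end Main

section Order

variable {X J : Type} {w : ℝ → X → ℝ} {c : X → ℂ} {a : J → X → ℂ}

lemma tendsto_log : Tendsto (fun h : ℝ => Real.log (1/h)) (𝓝[>] 0) atTop := by
  simp only [one_div, Real.log_inv]
  exact tendsto_neg_atBot_atTop.comp Real.tendsto_log_nhdsGT_zero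

/-- Bessel inequality for a finite family -/
theorem bessel_finite (D : Data X J w c a) (M : ℝ) (hM : ∃ C : ℝ, ∀ h : ℝ, 0 < h → h ≤ 1 →
      ∑' x, ‖c x‖ ^ 2 * w h x ≤ M * Real.log (1/h) + C) (T : Finset J) (m : J → ℤ)
    (hm : ∀ j ∈ T, ∃ C : ℝ, ∀ᶠ h : ℝ in 𝓝[>] 0,
      |(∑' x, c x * a j x * (w h x : ℂ)).re - m j * Real.log (1/h)| ≤ C) :
    ∑ j ∈ T, (m j : ℝ) ^ 2 ≤ M := by
  obtain ⟨C, hC⟩ := remainder_small D T m hm
  obtain ⟨C1, hC1⟩ := hM
  by_contra hcon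
  push Not at hcon
  set S := ∑ j ∈ T, (m j : ℝ) ^ 2
  have hpos : 0 < S - M := by linarith
  have h1 : Tendsto (fun h : ℝ => (S - M) * Real.log (1/h)) (𝓝[>] 0) atTop :=
    tendsto_log.const_mul_atTop hpos
  obtain ⟨h, ⟨⟨h2, h3⟩, h4⟩, h5⟩ := (((hC.and (h1.eventually_gt_atTop (C + C1))).and
    self_mem_nhdsWithin).and
    (nhdsWithin_le_nhds (Iio_mem_nhds (show (0:ℝ) < 1 by norm_num)))).exists
  have h6 := hC1 h h4 (le_of_lt h5)
  have h7 : 0 ≤ ∑' x, ‖c x - ∑ j ∈ T, (m j : ℂ) * conj (a j x)‖ ^ 2 * w h x :=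
    tsum_nonneg fun x => mul_nonneg (sq_nonneg _) (D.w0 h x)
  have h8 := (abs_le.mp h2).2
  have h9 : (S - M) * Real.log (1/h) = S * Real.log (1/h) - M * Real.log (1/h) := by ring
  have h10 : Real.log (1/h) * S = S * Real.log (1/h) := mul_comm _ _
  linarith

end Order

/-- the orders: Bessel inequality, remainder, Parseval criterion -/
theorem orders {X J : Type} {w : ℝ → X → ℝ} {c : X → ℂ} {a : J → X → ℂ}
    (D : Data X J w c a) (M : ℝ) (hM : ∃ C : ℝ, ∀ h : ℝ, 0 < h → h ≤ 1 →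
      ∑' x, ‖c x‖ ^ 2 * w h x ≤ M * Real.log (1/h) + C)
    (L : J → ℂ → ℂ) (hLne : ∀ j, ∀ h : ℝ, 0 < h → L j (1 + h) ≠ 0)
    (hL : ∀ j, ∀ h : ℝ, 0 < h →
      Real.log ‖L j (1 + h)‖ = (∑' x, c x * a j x * (w h x : ℂ)).re)
    (hmero : ∀ j, MeromorphicAt (L j) 1) :
    ∃ (T : Finset J) (m : J → ℤ),
      (∀ j, meromorphicOrderAt (L j) 1 = ((-m j : ℤ) : WithTop ℤ)) ∧
      (∀ j, j ∉ T → m j = 0) ∧
      ∑ j ∈ T, (m j : ℝ) ^ 2 ≤ M ∧
      (∃ C : ℝ, ∀ h : ℝ, 0 < h → h ≤ 1 →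
        ∑' x, ‖c x - ∑ j ∈ T, (m j : ℂ) * conj (a j x)‖ ^ 2 * w h x ≤
          (M - ∑ j ∈ T, (m j : ℝ) ^ 2) * Real.log (1/h) + C) ∧
      (∑ j ∈ T, (m j : ℝ) ^ 2 = M →
        Summable fun x => ‖c x - ∑ j ∈ T, (m j : ℂ) * conj (a j x)‖ ^ 2 * w 0 x) ∧
      ((∃ C : ℝ, ∀ h : ℝ, 0 < h → h ≤ 1 →
          M * Real.log (1/h) - C ≤ ∑' x, ‖c x‖ ^ 2 * w h x) →
        (Summable fun x => ‖c x - ∑ j ∈ T, (m j : ℂ) * conj (a j x)‖ ^ 2 * w 0 x) →
        ∑ j ∈ T, (m j : ℝ) ^ 2 = M) := by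
  classical
  have hshift : Tendsto (fun h : ℝ => (1:ℂ) + (h:ℂ)) (𝓝[>] 0) (𝓝[≠] 1) := by
    rw [tendsto_nhdsWithin_iff]
    constructor
    · have : Tendsto (fun h : ℝ => (1:ℂ) + (h:ℂ)) (𝓝 0) (𝓝 (1 + ((0:ℝ):ℂ))) := by
        apply Continuous.tendsto
        fun_prop
      rw [ofReal_zero, add_zero] at this
      exact this.mono_left nhdsWithin_le_nhds
    · filter_upwards [self_mem_nhdsWithin] with h hh
      have : (0:ℝ) < h := hh
      simp [this.ne']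
  have htop : ∀ j, meromorphicOrderAt (L j) 1 ≠ ⊤ := by
    intro j htop
    rw [meromorphicOrderAt_eq_top_iff] at htop
    have h1 := hshift.eventually htop
    obtain ⟨h, h3, h4⟩ := (h1.and self_mem_nhdsWithin).exists
    exact hLne j h h4 h3
  have hex : ∀ j, ∃ k : ℤ, meromorphicOrderAt (L j) 1 = ((-k : ℤ) : WithTop ℤ) := by
    intro j
    obtain ⟨k, hk⟩ := WithTop.ne_top_iff_exists.mp (htop j)
    exact ⟨-k, by rw [← hk, neg_neg]⟩
  choose m hm using hex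
  have hgrow : ∀ j, ∃ C : ℝ, ∀ᶠ h : ℝ in 𝓝[>] 0,
      |(∑' x, c x * a j x * (w h x : ℂ)).re - m j * Real.log (1/h)| ≤ C := by
    intro j
    obtain ⟨C, hC⟩ := log_growth (hmero j) (m j) (hm j)
    refine ⟨C, ?_⟩
    filter_upwards [hC, self_mem_nhdsWithin] with h h1 h2
    rwa [hL j h h2] at h1
  have hfin : {j | m j ≠ 0}.Finite := by
    by_contra hinf
    obtain ⟨T, hT, hcard⟩ :=
      (show Set.Infinite {j | m j ≠ 0} from hinf).exists_subset_card_eq (⌈M⌉₊ + 1)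
    have h1 := bessel_finite D M hM T m (fun j _ => hgrow j)
    have h2 : (T.card : ℝ) ≤ ∑ j ∈ T, (m j : ℝ) ^ 2 := by
      rw [← nsmul_one, ← Finset.sum_const]
      apply Finset.sum_le_sum
      intro j hj
      have h3 : m j ≠ 0 := hT hj
      have h5 : (1:ℤ) ≤ m j ^ 2 := by
        have := sq_nonneg (m j)
        rcases this.lt_or_eq with h | h
        · omega
        · exact absurd (pow_eq_zero_iff (two_ne_zero) |>.mp h.symm) h3
      exact_mod_cast h5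
    rw [hcard] at h2
    push_cast at h2
    have := Nat.le_ceil M
    linarith
  set T := hfin.toFinset with hT
  have hB := bessel_finite D M hM T m (fun j _ => hgrow j)
  obtain ⟨C, hC⟩ := remainder_small D T m (fun j _ => hgrow j)
  obtain ⟨C1, hC1⟩ := hM
  set S := ∑ j ∈ T, (m j : ℝ) ^ 2 with hS
  set r : X → ℝ := fun x => ‖c x - ∑ j ∈ T, (m j : ℂ) * conj (a j x)‖ ^ 2 with hr
  have hr0 : ∀ x, 0 ≤ r x := fun x => sq_nonneg _
  -- summability of the remainder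
  have hrs : ∀ h : ℝ, 0 < h → h ≤ 1 → Summable fun x => r x * w h x := by
    intro h h0 h1
    obtain ⟨C, -, hC⟩ := distance_bound D T
    have h2 := (hC h h0 h1 (fun j => (m j : ℝ))).1
    refine h2.congr fun x => ?_
    simp only [hr]
    push_cast
    rfl
  -- small h
  have hsmall : ∃ δ : ℝ, 0 < δ ∧ δ ≤ 1 ∧ ∀ h : ℝ, 0 < h → h ≤ δ →
      |∑' x, r x * w h x - (∑' x, ‖c x‖ ^ 2 * w h x - Real.log (1/h) * S)| ≤ C := by
    rw [eventually_nhdsWithin_iff, Metric.eventually_nhds_iff] at hC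
    obtain ⟨ε, hε, h1⟩ := hC
    refine ⟨min (ε/2) 1, by positivity, min_le_right _ _, fun h h0 h2 => ?_⟩
    apply h1 _ h0
    rw [Real.dist_eq, sub_zero, abs_of_pos h0]
    have := min_le_left (ε/2) 1
    linarith
  obtain ⟨δ, hδ0, hδ1, hδ⟩ := hsmall
  have hrem : ∃ C : ℝ, ∀ h : ℝ, 0 < h → h ≤ 1 →
      ∑' x, r x * w h x ≤ (M - S) * Real.log (1/h) + C := by
    refine ⟨max (C + C1) (∑' x, r x * w δ x), fun h h0 h1 => ?_⟩
    by_cases hh : h ≤ δ
    · have h2 := (abs_le.mp (hδ h h0 hh)).2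
      have h3 := hC1 h h0 h1
      have h4 := le_max_left (C + C1) (∑' x, r x * w δ x)
      have h5 : (M - S) * Real.log (1/h) = M * Real.log (1/h) - Real.log (1/h) * S := by ring
      linarith
    · push Not at hh
      have h2 : ∑' x, r x * w h x ≤ ∑' x, r x * w δ x :=
        (hrs h h0 h1).tsum_le_tsum (fun x => mul_le_mul_of_nonneg_left
          (D.wmono δ h x hδ0.le hh.le) (hr0 x)) (hrs δ hδ0 hδ1)
      have hlog : 0 ≤ Real.log (1/h) := by
        apply Real.log_nonneg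
        rw [le_div_iff₀ h0]
        linarith
      have h3 : 0 ≤ (M - S) * Real.log (1/h) := mul_nonneg (by linarith) hlog
      have h4 := le_max_right (C + C1) (∑' x, r x * w δ x)
      linarith
  refine ⟨T, m, hm, ?_, hB, hrem, ?_, ?_⟩
  · intro j hj
    by_contra h
    exact hj (by rw [hT, Set.Finite.mem_toFinset]; exact h)
  · intro hSM
    obtain ⟨C2, hC2⟩ := hrem
    apply summable_of_sum_le (c := C2) (fun x => mul_nonneg (hr0 x) (D.w0 0 x))
    intro F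
    have hlim : Tendsto (fun h => ∑ x ∈ F, r x * w h x) (𝓝[>] 0) (𝓝 (∑ x ∈ F, r x * w 0 x)) :=
      tendsto_finsetSum _ fun x _ => (D.wlim x).const_mul _
    apply le_of_tendsto hlim
    filter_upwards [self_mem_nhdsWithin,
      nhdsWithin_le_nhds (Iio_mem_nhds (show (0:ℝ) < 1 by norm_num))] with h h0 h1
    have h2 := hC2 h h0 (le_of_lt h1)
    have hSM' : M - S = 0 := by
      have : S = M := hSM
      linarith
    rw [hSM', zero_mul, zero_add] at h2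
    refine le_trans ?_ h2
    exact (hrs h h0 (le_of_lt h1)).sum_le_tsum F (fun x _ => mul_nonneg (hr0 x) (D.w0 h x))
  · rintro ⟨C2, hC2⟩ hsum
    by_contra hne
    have hlt : S < M := lt_of_le_of_ne hB hne
    have h1 : Tendsto (fun h : ℝ => (M - S) * Real.log (1/h)) (𝓝[>] 0) atTop :=
      tendsto_log.const_mul_atTop (by linarith)
    obtain ⟨h, ⟨h2, h3⟩, h4⟩ := ((((h1.eventually_gt_atTop (∑' x, r x * w 0 x + C + C2)).and
      self_mem_nhdsWithin).and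
      (nhdsWithin_le_nhds (Iic_mem_nhds hδ0)))).exists
    have h3' : (0:ℝ) < h := h3
    have h4' : h ≤ δ := h4
    have h5 := (abs_le.mp (hδ h h3' h4')).1
    have h6 := hC2 h h3' (h4'.trans hδ1)
    have h7 : ∑' x, r x * w h x ≤ ∑' x, r x * w 0 x :=
      (hrs h h3' (h4'.trans hδ1)).tsum_le_tsum (fun x => mul_le_mul_of_nonneg_left
        (D.wmono 0 h x le_rfl h3'.le) (hr0 x)) hsum
    have h8 : (M - S) * Real.log (1/h) = M * Real.log (1/h) - Real.log (1/h) * S := by ring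
    linarith

end Pool.H42.Bessel
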