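import Mathlib
import Pool.Agent.H42.Bessel.Abstract

open Filter Topology Complex ComplexConjugate

namespace Pool.H42.Bessel

/-- The weight of `(v, k)`, which stands for the power `v ^ (k + 1)` of the place `v`:
`N(v)^(-(k+1)(1+h)) / (k+1)`. -/
noncomputable def wt {V : Type} (N : V → ℝ) (h : ℝ) (x : V × ℕ) : ℝ :=
  N x.1 ^ (-((x.2 + 1 : ℝ) * (1 + h))) / (x.2 + 1)

/-- Power sum: the trace of the `(k+1)`-st power of a matrix with eigenvalues `a i`. -/
noncomputable def ps {n : ℕ} (a : Fin n → ℂ) (k : ℕ) : ℂ := ∑ i, a i ^ (k + 1)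

section

variable {V : Type} {N : V → ℝ}

lemma wt_nonneg (hN : ∀ v, 1 < N v) (h : ℝ) (x : V × ℕ) : 0 ≤ wt N h x := by
  unfold wt
  have := hN x.1
  positivity

lemma wt_mono (hN : ∀ v, 1 < N v) (h h' : ℝ) (x : V × ℕ) (_ : 0 ≤ h) (hh : h ≤ h') :
    wt N h' x ≤ wt N h x := by
  unfold wt
  apply div_le_div_of_nonneg_right _ (by positivity)
  apply Real.rpow_le_rpow_of_exponent_le (hN x.1).le
  have : (0:ℝ) ≤ (x.2:ℝ) + 1 := by positivity
  nlinarith

lemma wt_lim (hN : ∀ v, 1 < N v) (x : V × ℕ) :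
    Tendsto (fun h => wt N h x) (𝓝[>] 0) (𝓝 (wt N 0 x)) := by
  have h1 : Continuous fun h : ℝ => wt N h x := by
    unfold wt
    have h2 : N x.1 ≠ 0 := (lt_trans one_pos (hN x.1)).ne'
    have h3 : Continuous fun h : ℝ => N x.1 ^ (-((x.2 + 1 : ℝ) * (1 + h))) :=
      Continuous.rpow continuous_const (by fun_prop) (fun _ => Or.inl h2)
    exact h3.div_const _
  exact (h1.tendsto 0).mono_left nhdsWithin_le_nhds

/-- the Euler product of a tensor product as the exponential of a sum over prime powers -/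
lemma hasProd_euler (hN : ∀ v, 1 < N v) {n m : ℕ} (γ : V → Fin n → ℂ) (α : V → Fin m → ℂ)
    (hγ : ∀ v i, ‖γ v i‖ ≤ Real.sqrt (N v)) (hα : ∀ v l, ‖α v l‖ ≤ Real.sqrt (N v))
    (h : ℝ) (h0 : 0 < h)
    (hs : Summable fun x : V × ℕ => ps (γ x.1) x.2 * ps (α x.1) x.2 * (wt N h x : ℂ)) :
    HasProd (fun v => ∏ i, ∏ l, (1 - γ v i * α v l * (N v : ℂ) ^ (-(1 + h) : ℂ))⁻¹)
      (Complex.exp (∑' x : V × ℕ, ps (γ x.1) x.2 * ps (α x.1) x.2 * (wt N h x : ℂ))) := by
  have hz : ∀ v i l, ‖γ v i * α v l * (N v : ℂ) ^ (-(1 + h) : ℂ)‖ < 1 := by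
    intro v i l
    have hv : 0 < N v := lt_trans one_pos (hN v)
    rw [norm_mul, norm_mul, Complex.norm_cpow_eq_rpow_re_of_pos hv]
    have e1 : (-(1 + (h:ℂ)) : ℂ).re = -1 - h := by
      simp
      ring
    rw [e1]
    have h1 : ‖γ v i‖ * ‖α v l‖ ≤ N v := by
      calc ‖γ v i‖ * ‖α v l‖ ≤ Real.sqrt (N v) * Real.sqrt (N v) :=
            mul_le_mul (hγ v i) (hα v l) (norm_nonneg _) (Real.sqrt_nonneg _)
        _ = N v := Real.mul_self_sqrt hv.le
    calc ‖γ v i‖ * ‖α v l‖ * N v ^ (-1 - h) ≤ N v * N v ^ (-1 - h) := by gcongr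
      _ = N v ^ (-h) := by
          nth_rewrite 1 [← Real.rpow_one (N v)]
          rw [← Real.rpow_add hv]
          congr 1
          ring
      _ < 1 := Real.rpow_lt_one_of_one_lt_of_neg (hN v) (by linarith)
  set G : V → ℂ := fun v => ∑ i, ∑ l,
    -Complex.log (1 - γ v i * α v l * (N v : ℂ) ^ (-(1 + h) : ℂ)) with hG
  have hfib : ∀ v, HasSum (fun k : ℕ => ps (γ v) k * ps (α v) k * (wt N h (v, k) : ℂ)) (G v) := by
    intro v
    have hv : 0 < N v := lt_trans one_pos (hN v)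
    have h1 : HasSum (fun k : ℕ => ∑ i, ∑ l,
        (γ v i * α v l * (N v : ℂ) ^ (-(1 + h) : ℂ)) ^ (k + 1) / ((k + 1 : ℕ) : ℂ)) (G v) := by
      apply hasSum_sum
      intro i _
      apply hasSum_sum
      intro l _
      have h2 := Complex.hasSum_taylorSeries_neg_log (hz v i l)
      rw [← hasSum_nat_add_iff' 1] at h2
      simpa using h2
    refine h1.congr_fun ?_
    intro k
    have h3 : (wt N h (v, k) : ℂ) = ((N v : ℂ) ^ (-(1 + h) : ℂ)) ^ (k + 1) / ((k + 1 : ℕ) : ℂ) := by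
      unfold wt
      rw [ofReal_div]
      congr 1
      · have e2 : ((N v : ℂ) ^ (-(1 + h) : ℂ)) = ((N v ^ (-(1 + h)) : ℝ) : ℂ) := by
          rw [ofReal_cpow hv.le]
          push_cast
          rfl
        rw [e2, ← ofReal_pow, ← Real.rpow_natCast, ← Real.rpow_mul hv.le]
        congr 2
        push_cast
        ring
      · push_cast
        rfl
    rw [h3]
    unfold ps
    rw [Finset.sum_mul_sum, Finset.sum_mul]
    apply Finset.sum_congr rfl
    intro i _
    rw [Finset.sum_mul]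
    apply Finset.sum_congr rfl
    intro l _
    rw [mul_pow, mul_pow]
    ring
  have h2 : HasSum G (∑' x : V × ℕ, ps (γ x.1) x.2 * ps (α x.1) x.2 * (wt N h x : ℂ)) :=
    hs.hasSum.prod_fiberwise hfib
  have h3 := h2.cexp
  refine h3.congr_fun ?_
  intro v
  simp only [hG, Function.comp]
  rw [Complex.exp_sum]
  apply Finset.prod_congr rfl
  intro i _
  rw [Complex.exp_sum]
  apply Finset.prod_congr rfl
  intro l _
  rw [Complex.exp_neg, Complex.exp_log]
  intro h4
  have h5 := hz v i l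
  have h6 : γ v i * α v l * (N v : ℂ) ^ (-(1 + h) : ℂ) = 1 := by
    rw [sub_eq_zero] at h4
    exact h4.symm
  rw [h6] at h5
  simp at h5

end

end Pool.H42.Bessel
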